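import Mathlib
import Pool.Agent.V11170.LeafOsc

set_option autoImplicit false

namespace Pool.Agent.Results.MP_414122_co.BelowSilver

open Pool.Agent.V11170.Classes Pool.Agent.V11170.LeafOsc

/-- **Disproof of Q1.** There is a sum closed permutation class whose indecomposables have upper
growth rate greater than `1`, while the class itself has upper growth rate at most
`50 / 21 = 2.3809… < 1 + √2`. -/
theorem result : ∃ C : Set P, IsClass C ∧ SumClosed C ∧ 1 < upperGrowth (ind C) ∧
    upperGrowth C ≤ ENNReal.ofReal (50 / 21) ∧ upperGrowth C < ENNReal.ofReal (1 + √2) := by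
  refine ⟨CC, isClass_CC, sumClosed_CC, ?_, growth_CC_le, ?_⟩
  · refine lt_of_lt_of_le ?_ growth_ind_ge
    rw [← ENNReal.ofReal_one]
    exact (ENNReal.ofReal_lt_ofReal_iff (by norm_num)).mpr (by norm_num)
  · refine lt_of_le_of_lt growth_CC_le ?_
    apply (ENNReal.ofReal_lt_ofReal_iff (by positivity)).mpr
    have h : (1.41 : ℝ) < √2 := by
      apply Real.lt_sqrt_of_sq_lt
      norm_num
    linarith

end Pool.Agent.Results.MP_414122_co.BelowSilver
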